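import Pool.Agent.Work.MP_f82ddf_nt.DQ.Main

/-!
# Every projective variety is, up to signs of the coordinates, the locus of the entire curves of a
smooth complete intersection of diagonal quadrics
-/

open MvPolynomial Set
open Pool.Agent.Work.MP_f82ddf_nt

namespace Pool.Agent.Results.MP_f82ddf_nt.ExceptionalLoci

/-- Let `K` be a field of characteristic zero, for example a number field, let `S` be a projective
variety over `K` (given by homogeneous equations; singular and reducible ones are included), and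
let `δ` be any function from `ℕ` to `ℕ`. Then there is a smooth complete intersection
`X : ∑ j, a i j * y j ^ 2 = 0` (`i < r`) of diagonal quadrics over `K` in `N`-space, with
`N + 1 < 2 * r` and `δ (N - r) ≤ r`, and a `d`-uple embedding `Λ` of `S` in `X`, such that for
every embedding `σ` of `K` in the field of complex numbers:
* `X_σ` is Kobayashi hyperbolic if and only if `S_σ` is Kobayashi hyperbolic;
* every nonconstant entire curve in `X_σ` is, up to signs of the coordinates which do not depend
  on the point of the curve, the image under `Λ` of an entire curve in `S_σ`. -/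
theorem result (K : Type) [Field K] [CharZero K] (n : ℕ)
    (S : Set (MvPolynomial (Fin (n + 1)) K)) (hS : ∀ F ∈ S, ∃ e, F.IsHomogeneous e)
    (δ : ℕ → ℕ) :
    ∃ (N r d : ℕ) (a : Matrix (Fin r) (Fin (N + 1)) K)
      (Λ : Fin (N + 1) → MvPolynomial (Fin (n + 1)) K),
      N + 1 < 2 * r ∧ δ (N - r) ≤ r ∧ SmoothDiagonal a ∧ IsEmbedding d Λ ∧
      (∀ (L : Type) [Field L] [Algebra K L] (x : Fin (n + 1) → L), (∀ F ∈ S, aeval x F = 0) →
        ∀ G ∈ diagonal a, aeval (fun j => aeval x (Λ j)) G = 0) ∧
      ∀ σ : K →+* ℂ,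
        (KobayashiHyperbolic (complexPoints (diagonal a) σ) ↔
          KobayashiHyperbolic (complexPoints S σ)) ∧
        ∀ f : ℂ → PSpace ℂ N, HolomorphicOn f univ →
          (∀ z, f z ∈ complexPoints (diagonal a) σ) → (∃ z w, f z ≠ f w) →
          ∃ (ε : Fin (N + 1) → ℂ) (g : ℂ → PSpace ℂ n), (∀ j, ε j = 1 ∨ ε j = -1) ∧
            HolomorphicOn g univ ∧ (∀ z, g z ∈ complexPoints S σ) ∧
            ∀ z, ∃ c : ℂ, c ≠ 0 ∧ ∀ j, (f z).rep j = c * (ε j * eval₂ σ (g z).rep (Λ j)) := by
  obtain ⟨N, r, d, a, Λ, h1, h2, h3, h4, h5, -, h6⟩ := DQ.exists_diagonal δ S hS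
  exact ⟨N, r, d, a, Λ, h1, h2, h3, h4, h5, h6⟩

end Pool.Agent.Results.MP_f82ddf_nt.ExceptionalLoci
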